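import Pool.Agent.H7.IG.LED
import Pool.Agent.H7.IG.LevC
import Pool.Agent.H7.IG.Tk4
import Pool.Agent.H7.IG.Tk5
import Pool.Agent.H7.IG.Tk8

/-!
# IG, Part 6: the hull is an elementary substructure

`rel k φ`: the formula `φ` with all quantifiers bounded by the variable `k`.
`sat_rel`: induction on `φ` (`bd φ ≤ k`: all variables of `φ` are `< k`); at the quantifiers, `x ∈ h` gives `x ∈ T` (`T` transitive), and `(upd f j x) k = f k` as `j ≠ k`.
`sat_iso`: induction on `φ`: a surjective map `u` with `E x y ↔ E' (u x) (u y)` and injective preserves satisfaction.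
`elemSub_of_elem`: let `f : ℕ → X`, choose `f' : ℕ → h'` with `e (f' i) = f i`; `k := bd φ`. Then
`Sat (X, ∈) φ f ↔ Sat (h', ∈) φ f'` (`sat_iso`, `e` is injective and preserves membership in both directions, `Elem.inj`, `Elem.mem`)
`↔ Sat (SMem A) (rel k φ) F` where `F k = h'`, `F i = f' i` otherwise (`sat_rel`)
`↔ Sat (SMem B) (rel k φ) (e F)` (`Elem.sat`) `↔ Sat (h, ∈) φ f` (`sat_rel`).
-/

set_option autoImplicit false
set_option linter.unusedVariables false
set_option linter.unusedSectionVars false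
set_option linter.unusedSimpArgs false
set_option linter.unusedTactic false
set_option linter.unreachableTactic false

namespace Pool.Agent.H19.IG6

open Pool.Agent.H17.Omega Pool.Agent.H17.Omega.CTM Pool.Agent.H52.GX Pool.Agent.H52.GC Pool.Agent.H7.IG

/-- `φ` with all quantifiers bounded by the variable `k`. -/
def rel (k : ℕ) : Fml → Fml
  | .mem i j => .mem i j
  | .eq i j => .eq i j
  | .bot => .bot
  | .imp φ ψ => .imp (rel k φ) (rel k ψ)
  | .and φ ψ => .and (rel k φ) (rel k ψ)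
  | .or φ ψ => .or (rel k φ) (rel k ψ)
  | .all j φ => .all j (.imp (.mem j k) (rel k φ))
  | .ex j φ => .ex j (.and (.mem j k) (rel k φ))

theorem sat_rel {T : Set ZFSet.{0}} (hT : Tra T) {h : ZFSet.{0}} (hh : h ∈ T) (k : ℕ) (φ : Fml) (hk : φ.bd ≤ k)
    (f : ℕ → T) (g : ℕ → {x : ZFSet.{0} // x ∈ h}) (hf : (f k).1 = h) (hfg : ∀ i < k, (f i).1 = (g i).1) :
    Sat (SMem T) (rel k φ) f ↔ Sat (fun x y : {x : ZFSet.{0} // x ∈ h} => x.1 ∈ y.1) φ g := by
  induction φ generalizing f g with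
  | mem i j =>
    have hk' : max i j + 1 ≤ k := hk
    change (f i).1 ∈ (f j).1 ↔ (g i).1 ∈ (g j).1
    rw [hfg i (by omega), hfg j (by omega)]
  | eq i j =>
    have hk' : max i j + 1 ≤ k := hk
    simp only [rel, Sat, Subtype.ext_iff]
    rw [hfg i (by omega), hfg j (by omega)]
  | bot => exact Iff.rfl
  | imp φ ψ ih1 ih2 =>
    have hk' : max φ.bd ψ.bd ≤ k := hk
    exact imp_congr (ih1 (le_trans (le_max_left _ _) hk') f g hf hfg)
      (ih2 (le_trans (le_max_right _ _) hk') f g hf hfg)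
  | and φ ψ ih1 ih2 =>
    have hk' : max φ.bd ψ.bd ≤ k := hk
    exact and_congr (ih1 (le_trans (le_max_left _ _) hk') f g hf hfg)
      (ih2 (le_trans (le_max_right _ _) hk') f g hf hfg)
  | or φ ψ ih1 ih2 =>
    have hk' : max φ.bd ψ.bd ≤ k := hk
    exact or_congr (ih1 (le_trans (le_max_left _ _) hk') f g hf hfg)
      (ih2 (le_trans (le_max_right _ _) hk') f g hf hfg)
  | all j φ ih =>
    have hk' : max (j + 1) φ.bd ≤ k := hk
    have hjk : j + 1 ≤ k := le_trans (le_max_left _ _) hk'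
    have hkj : k ≠ j := by omega
    have key : ∀ (x : T) (hx : x.1 ∈ h), Sat (SMem T) (rel k φ) (upd f j x) ↔
        Sat (fun x y : {x : ZFSet.{0} // x ∈ h} => x.1 ∈ y.1) φ (upd g j ⟨x.1, hx⟩) := by
      intro x hx
      refine ih (le_trans (le_max_right _ _) hk') _ _ ?_ fun i hi => ?_
      · rw [upd_ne _ _ hkj, hf]
      · by_cases hij : i = j
        · rw [hij, upd_same, upd_same]
        · rw [upd_ne _ _ hij, upd_ne _ _ hij, hfg i hi]
    constructor
    · intro h1 y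
      have h2 := h1 ⟨y.1, hT h hh y.1 y.2⟩ (by
        change (upd f j _ j).1 ∈ (upd f j _ k).1
        rw [upd_same, upd_ne _ _ hkj, hf]
        exact y.2)
      exact (key ⟨y.1, hT h hh y.1 y.2⟩ y.2).1 h2
    · intro h1 x hx
      have hx' : x.1 ∈ h := by
        have h2 : (upd f j x j).1 ∈ (upd f j x k).1 := hx
        rwa [upd_same, upd_ne _ _ hkj, hf] at h2
      exact (key x hx').2 (h1 ⟨x.1, hx'⟩)
  | ex j φ ih =>
    have hk' : max (j + 1) φ.bd ≤ k := hk
    have hjk : j + 1 ≤ k := le_trans (le_max_left _ _) hk'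
    have hkj : k ≠ j := by omega
    have key : ∀ (x : T) (hx : x.1 ∈ h), Sat (SMem T) (rel k φ) (upd f j x) ↔
        Sat (fun x y : {x : ZFSet.{0} // x ∈ h} => x.1 ∈ y.1) φ (upd g j ⟨x.1, hx⟩) := by
      intro x hx
      refine ih (le_trans (le_max_right _ _) hk') _ _ ?_ fun i hi => ?_
      · rw [upd_ne _ _ hkj, hf]
      · by_cases hij : i = j
        · rw [hij, upd_same, upd_same]
        · rw [upd_ne _ _ hij, upd_ne _ _ hij, hfg i hi]
    constructor
    · rintro ⟨x, hx, h2⟩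
      have hx' : x.1 ∈ h := by
        have h3 : (upd f j x j).1 ∈ (upd f j x k).1 := hx
        rwa [upd_same, upd_ne _ _ hkj, hf] at h3
      exact ⟨⟨x.1, hx'⟩, (key x hx').1 h2⟩
    · rintro ⟨y, h2⟩
      refine ⟨⟨y.1, hT h hh y.1 y.2⟩, ?_, (key ⟨y.1, hT h hh y.1 y.2⟩ y.2).2 h2⟩
      change (upd f j _ j).1 ∈ (upd f j _ k).1
      rw [upd_same, upd_ne _ _ hkj, hf]
      exact y.2

theorem sat_iso {M M' : Type*} {E : M → M → Prop} {E' : M' → M' → Prop} (u : M → M') (hu : Function.Bijective u)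
    (hE : ∀ x y, E x y ↔ E' (u x) (u y)) (φ : Fml) (f : ℕ → M) : Sat E φ f ↔ Sat E' φ (fun i => u (f i)) :=
  (Sat.iso u hu.2 hu.1 fun x y => (hE x y).symm).symm

theorem elemSub_of_elem {A B : Set ZFSet.{0}} {e : ZFSet.{0} → ZFSet.{0}} (he : Elem A B e) (hA : Tra A) (hB : Tra B)
    {h' X : ZFSet.{0}} (hm : h' ∈ A) (hX : ∀ z, z ∈ X ↔ ∃ x ∈ h', z = e x) : ElemSub X (e h') := by
  have hs : X ⊆ e h' := by
    intro z hz
    obtain ⟨x, hx, rfl⟩ := (hX z).1 hz
    exact (Elem.mem he hA hB (hA h' hm x hx) hm).1 hx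
  refine ⟨hs, fun φ f => ?_⟩
  have hch : ∀ i, ∃ x, x ∈ h' ∧ (f i).1 = e x := fun i => by
    obtain ⟨x, hx, h1⟩ := (hX _).1 (f i).2
    exact ⟨x, hx, h1⟩
  choose f' hf' hef using hch
  let u : {x : ZFSet.{0} // x ∈ h'} → {x : ZFSet.{0} // x ∈ X} := fun x => ⟨e x.1, (hX _).2 ⟨x.1, x.2, rfl⟩⟩
  have hu : Function.Bijective u := by
    refine ⟨fun x y hxy => ?_, fun z => ?_⟩
    · exact Subtype.ext (Elem.inj he hA hB (hA h' hm x.1 x.2) (hA h' hm y.1 y.2) (congrArg Subtype.val hxy))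
    · obtain ⟨x, hx, h1⟩ := (hX _).1 z.2
      exact ⟨⟨x, hx⟩, Subtype.ext h1.symm⟩
  have hfu : f = fun i => u ⟨f' i, hf' i⟩ := by
    funext i
    exact Subtype.ext (hef i)
  have h1 : Sat (fun x y : {x : ZFSet.{0} // x ∈ X} => x.1 ∈ y.1) φ f ↔
      Sat (fun x y : {x : ZFSet.{0} // x ∈ h'} => x.1 ∈ y.1) φ (fun i => ⟨f' i, hf' i⟩) := by
    rw [hfu]
    exact (sat_iso u hu (fun x y => Elem.mem he hA hB (hA h' hm x.1 x.2) (hA h' hm y.1 y.2)) φ
      (fun i => ⟨f' i, hf' i⟩)).symm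
  let F : ℕ → A := fun i => if i = φ.bd then ⟨h', hm⟩ else ⟨f' i, hA h' hm _ (hf' i)⟩
  have hFk : F φ.bd = ⟨h', hm⟩ := if_pos rfl
  have hFi : ∀ i < φ.bd, F i = ⟨f' i, hA h' hm _ (hf' i)⟩ := fun i hi => if_neg (by omega)
  have h2 := sat_rel hA hm φ.bd φ le_rfl F (fun i => ⟨f' i, hf' i⟩) (by rw [hFk]) fun i hi => by rw [hFi i hi]
  have h3 := he.sat (rel φ.bd φ) F
  have h4 := sat_rel hB (he.map _ hm) φ.bd φ le_rfl (fun i => ⟨e (F i).1, he.map _ (F i).2⟩)
    (fun i => ⟨(f i).1, hs (f i).2⟩) (by change e (F φ.bd).1 = e h'; rw [hFk]) fun i hi => by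
      change e (F i).1 = (f i).1
      rw [hFi i hi, hef i]
  exact h1.trans (h2.symm.trans (h3.trans h4))

end Pool.Agent.H19.IG6
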