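import Pool.Agent.H19.IG6.P2
import Pool.Agent.H88.IG.ClC

/-!
# IG, Part 6: the hull is a member of the club

Write `h = e h'`, `C = e C'`.
* `D := {e c : c ∈ C'} ∈ N`, `Cvr N δ D` (`LE.img`); `D ⊆ C` (`Elem.mem`).
* `C' ≠ ∅`: `C ≠ ∅` by `Club.unb` for `∅`; `Elem.ud` for `∃ x, x ∈ v 0` (or: if `C' = ∅` then `e C' = ∅`).
* directed: for `c, c' ∈ C` the set `c ∪ c' ⊆ h` is in `N` and `Cvr N δ (c ∪ c')` (`cvr_union_om1` of Tk5 or directly), so there is `c'' ∈ C` with `c, c' ⊆ c''` (`Club.unb`).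
  The statement `∀ c ∈ C, ∀ c' ∈ C, ∃ c'' ∈ C, c ⊆ c'' ∧ c' ⊆ c''` is `UD TraC`, so holds for `C'` (`Elem.ud`), and `Elem.sbs` gives `Dir D`.
* every `c ∈ C'` is covered by `δ` in `W`: `∀ c ∈ C, Cvr N δ c` gives `∀ c ∈ C, Cvr B δ c` (`Lev.cvr`; `δ = e δ ∈ B`), `UD TraC` with `levC_ud4`, so `∀ c ∈ C', Cvr A δ c`, so `Cvr W δ c` (`Lev.cvr`).
  So `e c = {e z : z ∈ c}` (`Elem.image`, `LE.fix'`).
* `⋃ C' = h'` elementwise: `∀ c ∈ C, ∀ x ∈ c, x ∈ h` and `∀ x ∈ h, ∃ c ∈ C, x ∈ c` (`Club.unb` for `{x}`), both `UD TraC` in `(h, C)`.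
* So `⋃ D = X`: `z ∈ e c`, `c ∈ C'` gives `z = e x`, `x ∈ c`, `x ∈ h'`; conversely `x ∈ h'`, `x ∈ c ∈ C'`, `e x ∈ e c ∈ D`.
* `club_directed` of H88/IG/ClC: `⋃ D ∈ C`.
-/

set_option autoImplicit false
set_option linter.unusedVariables false
set_option linter.unusedSectionVars false
set_option linter.unusedSimpArgs false
set_option linter.unusedTactic false
set_option linter.unreachableTactic false

namespace Pool.Agent.H19.IG6

open Pool.Agent.H17.Omega Pool.Agent.H17.Omega.CTM Pool.Agent.H52.GX Pool.Agent.H52.GC Pool.Agent.H7.IG Pool.Agent.H88.IG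

theorem p5_union {N : Set ZFSet.{0}} (hN : CTM N) {δ : Ordinal.{0}} (hδ : IsOm1 N δ) {c c' : ZFSet.{0}}
    (hc : c ∈ N) (hc' : c' ∈ N) (h : Cvr N δ.toZFSet c) (h' : Cvr N δ.toZFSet c') :
    Cvr N δ.toZFSet (c ∪ c') := by
  classical
  have hI : ({c, c'} : ZFSet.{0}) ∈ N := hN.upair_mem hc hc'
  have hr : ZFSet.prod {c} c ∪ ZFSet.prod {c'} c' ∈ N :=
    hN.union_mem (hN.prod_mem (hN.singleton_mem hc) hc) (hN.prod_mem (hN.singleton_mem hc') hc')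
  refine cvr_union_om1 hN hδ hI hr (hN.union_mem hc hc') ?_ ?_ ?_
  · exact ctb_cvr_om1 hN hδ (tk7_fin_ctb hN hI ⟨{c, c'}, fun z => by simp⟩)
  · intro i hi
    rw [ZFSet.mem_pair] at hi
    rcases hi with rfl | rfl
    · refine ⟨i, hc, h, fun x _ hx => ?_⟩
      rw [ZFSet.mem_union, ZFSet.pair_mem_prod, ZFSet.pair_mem_prod, ZFSet.mem_singleton,
        ZFSet.mem_singleton] at hx
      rcases hx with hx | hx
      · exact hx.2
      · rw [hx.1]; exact hx.2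
    · refine ⟨i, hc', h', fun x _ hx => ?_⟩
      rw [ZFSet.mem_union, ZFSet.pair_mem_prod, ZFSet.pair_mem_prod, ZFSet.mem_singleton,
        ZFSet.mem_singleton] at hx
      rcases hx with hx | hx
      · rw [hx.1]; exact hx.2
      · exact hx.2
  · intro x hx
    rcases ZFSet.mem_union.1 hx with hx | hx
    · refine ⟨c, by simp, ?_⟩
      rw [ZFSet.mem_union, ZFSet.pair_mem_prod]
      exact Or.inl ⟨by simp, hx⟩
    · refine ⟨c', by simp, ?_⟩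
      rw [ZFSet.mem_union, ZFSet.pair_mem_prod, ZFSet.pair_mem_prod]
      exact Or.inr ⟨by simp, hx⟩

theorem p5_ud1 : UD TraC (fun N (v : Fin 1 → N) => ∀ a ∈ (v 0).1, ∀ b ∈ (v 0).1, ∃ c ∈ (v 0).1,
    a ⊆ c ∧ b ⊆ c) := by
  (repeat' first
      | exact UT.var _ | exact UT.last | assumption
      | refine UD.pairMem ?_ ?_ ?_ | refine UD.isPair ?_ ?_ ?_ | refine UD.mem ?_ ?_
      | refine UD.eqv ?_ ?_ | refine UD.eq ?_ ?_ | refine UD.subset ?_ ?_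
      | refine UD.isEmpty ?_ | refine UD.isTrans ?_ | refine UD.isOrd ?_ | refine UD.isNat ?_
      | refine UD.isUpair ?_ ?_ ?_ | refine UD.isInsert ?_ ?_ ?_ | refine UD.isUnion ?_ ?_ ?_
      | refine UD.and ?_ ?_ | refine UD.or ?_ ?_ | refine UD.iff ?_ ?_ | refine UD.not ?_
      | refine UD.imp ?_ ?_ | refine UD.all ?_ | refine UD.ex ?_ | exact UD.false' | exact UD.true'
      | refine UD.ball ?_ ?_ | refine UD.bex ?_ ?_)

theorem p5_ud2 : UD TraC (fun N (v : Fin 2 → N) => (∀ c ∈ (v 0).1, ∀ x ∈ c, x ∈ (v 1).1) ∧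
    ∀ x ∈ (v 1).1, ∃ c ∈ (v 0).1, x ∈ c) := by
  (repeat' first
      | exact UT.var _ | exact UT.last | assumption
      | refine UD.pairMem ?_ ?_ ?_ | refine UD.isPair ?_ ?_ ?_ | refine UD.mem ?_ ?_
      | refine UD.eqv ?_ ?_ | refine UD.eq ?_ ?_ | refine UD.subset ?_ ?_
      | refine UD.isEmpty ?_ | refine UD.isTrans ?_ | refine UD.isOrd ?_ | refine UD.isNat ?_
      | refine UD.isUpair ?_ ?_ ?_ | refine UD.isInsert ?_ ?_ ?_ | refine UD.isUnion ?_ ?_ ?_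
      | refine UD.and ?_ ?_ | refine UD.or ?_ ?_ | refine UD.iff ?_ ?_ | refine UD.not ?_
      | refine UD.imp ?_ ?_ | refine UD.all ?_ | refine UD.ex ?_ | exact UD.false' | exact UD.true'
      | refine UD.ball ?_ ?_ | refine UD.bex ?_ ?_)

theorem p5_ud3 : UD TraC (fun N (v : Fin 2 → N) => ∀ c : N, c.1 ∈ (v 1).1 → Cvr N (v 0).1 c.1) := by
  refine UD.all ?_
  refine UD.imp ?_ ?_
  · (repeat' first
      | exact UT.var _ | exact UT.last | assumption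
      | refine UD.pairMem ?_ ?_ ?_ | refine UD.isPair ?_ ?_ ?_ | refine UD.mem ?_ ?_
      | refine UD.eqv ?_ ?_ | refine UD.eq ?_ ?_ | refine UD.subset ?_ ?_
      | refine UD.isEmpty ?_ | refine UD.isTrans ?_ | refine UD.isOrd ?_ | refine UD.isNat ?_
      | refine UD.isUpair ?_ ?_ ?_ | refine UD.isInsert ?_ ?_ ?_ | refine UD.isUnion ?_ ?_ ?_
      | refine UD.and ?_ ?_ | refine UD.or ?_ ?_ | refine UD.iff ?_ ?_ | refine UD.not ?_
      | refine UD.imp ?_ ?_ | refine UD.all ?_ | refine UD.ex ?_ | exact UD.false' | exact UD.true'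
      | refine UD.ball ?_ ?_ | refine UD.bex ?_ ?_)
  · exact UD.sub2 (P := fun N x y => Cvr N x.1 y.1) levC_ud4 (UT.var _) UT.last

variable {W N A B : Set ZFSet.{0}} {δ γ κ : Ordinal.{0}} {e : ZFSet.{0} → ZFSet.{0}}

theorem hull_mem_club (h : LE W N A B δ γ κ e) (hs : Sml N A δ) {h' C' X : ZFSet.{0}} (hm : h' ∈ A) (hC' : C' ∈ A)
    (hcl : Club N δ (e h') (e C')) (hX : ∀ z, z ∈ X ↔ ∃ x ∈ h', z = e x) : X ∈ e C' := by
  have hN := h.hN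
  have hδ := h.om1'
  have hA := h.traA
  have hB := h.traB
  have he := h.el
  have hne0 : A.Nonempty := ⟨_, hm⟩
  have hEB : e C' ∈ B := he.map _ hC'
  have hEN : e C' ∈ N := h.lev'.sub hEB
  have hHB : e h' ∈ B := he.map _ hm
  have hcN : ∀ c ∈ e C', c ∈ N := fun c hc => hN.mem_of_mem hEN hc
  obtain ⟨D, hD, hD1, hD2⟩ := LE.img h hs hC'
  have hCA : ∀ c ∈ C', c ∈ A := fun c hc => hA _ hC' _ hc
  have hDE : D ⊆ e C' := by
    intro z hz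
    obtain ⟨x, hx, rfl⟩ := (hD1 z).1 hz
    exact (he.mem hA hB (hCA x hx) hC').1 hx
  -- nonempty
  have hEne : ∃ c, c ∈ e C' := by
    obtain ⟨y, hy, _⟩ := hcl.unb ∅ hN.empty_mem (fun z hz => absurd hz (ZFSet.notMem_empty z))
      (cvr_of_subset hN hδ.mem (fun z hz => absurd hz (ZFSet.notMem_empty z)))
    exact ⟨y, hy⟩
  have hCne : ∃ c, c ∈ C' := by
    by_contra hcon
    push Not at hcon
    have h0 : C' = ∅ := by
      ext z
      exact ⟨fun hz => absurd hz (hcon z), fun hz => absurd hz (ZFSet.notMem_empty z)⟩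
    have h1 := he.ud hA hB (Ψ := fun N (v : Fin 1 → N) => (v 0).1 = ∅) (UD.isEmpty (UT.var _)) hne0
      ![⟨C', hC'⟩]
    have h2 : e C' = ∅ := h1.1 h0
    obtain ⟨c, hc⟩ := hEne
    rw [h2] at hc
    exact ZFSet.notMem_empty c hc
  have hDne : ∃ d, d ∈ D := by
    obtain ⟨c, hc⟩ := hCne
    exact ⟨e c, (hD1 _).2 ⟨c, hc, rfl⟩⟩
  -- directed
  have hEdir : ∀ a ∈ e C', ∀ b ∈ e C', ∃ c ∈ e C', a ⊆ c ∧ b ⊆ c := by
    intro a ha b hb
    obtain ⟨ha1, ha2⟩ := hcl.sub a ha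
    obtain ⟨hb1, hb2⟩ := hcl.sub b hb
    obtain ⟨c, hc, hsub⟩ := hcl.unb (a ∪ b) (hN.union_mem (hcN a ha) (hcN b hb))
      (fun z hz => (ZFSet.mem_union.1 hz).elim (fun h => ha1 h) (fun h => hb1 h))
      (p5_union hN hδ (hcN a ha) (hcN b hb) ha2 hb2)
    exact ⟨c, hc, fun z hz => hsub (ZFSet.mem_union.2 (Or.inl hz)),
      fun z hz => hsub (ZFSet.mem_union.2 (Or.inr hz))⟩
  have hCdir : ∀ a ∈ C', ∀ b ∈ C', ∃ c ∈ C', a ⊆ c ∧ b ⊆ c :=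
    (he.ud hA hB p5_ud1 hne0 ![⟨C', hC'⟩]).2 hEdir
  have hDdir : Dir D := by
    intro a ha b hb
    obtain ⟨x, hx, rfl⟩ := (hD1 a).1 ha
    obtain ⟨y, hy, rfl⟩ := (hD1 b).1 hb
    obtain ⟨z, hz, hxz, hyz⟩ := hCdir x hx y hy
    exact ⟨e z, (hD1 _).2 ⟨z, hz, rfl⟩, (he.sbs hA hB (hCA x hx) (hCA z hz)).1 hxz,
      (he.sbs hA hB (hCA y hy) (hCA z hz)).1 hyz⟩
  -- covered
  have hδA : δ.toZFSet ∈ A := h.memδ
  have heδ : e δ.toZFSet = δ.toZFSet := h.fix' δ le_rfl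
  have hδB : δ.toZFSet ∈ B := by
    have := he.map _ hδA
    rwa [heδ] at this
  have hEc : ∀ c : B, c.1 ∈ e C' → Cvr B (e δ.toZFSet) c.1 := by
    intro c hc
    rw [heδ]
    exact (Lev.cvr hN h.lev' hδB c.2).1 (hcl.sub c.1 hc).2
  have hCc : ∀ c : A, c.1 ∈ C' → Cvr A δ.toZFSet c.1 :=
    (he.ud hA hB p5_ud3 hne0 ![⟨_, hδA⟩, ⟨C', hC'⟩]).2 hEc
  have himg : ∀ c ∈ C', ∀ z, z ∈ e c ↔ ∃ x ∈ c, z = e x := by
    intro c hc
    have hcA := hCA c hc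
    exact Elem.image h.hW hN h.lev h.lev' he hδA h.fix' hcA
      ((Lev.cvr h.hW h.lev hδA hcA).2 (hCc ⟨c, hcA⟩ hc))
  -- union
  have hEu : (∀ c ∈ e C', ∀ x ∈ c, x ∈ e h') ∧ ∀ x ∈ e h', ∃ c ∈ e C', x ∈ c := by
    classical
    refine ⟨fun c hc x hx => (hcl.sub c hc).1 hx, fun x hx => ?_⟩
    have hxN : x ∈ N := hN.mem_of_mem (h.lev'.sub hHB) hx
    have hsN := hN.singleton_mem hxN
    obtain ⟨c, hc, hsub⟩ := hcl.unb {x} hsN (fun z hz => by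
      rw [ZFSet.mem_singleton] at hz; rw [hz]; exact hx)
      (ctb_cvr_om1 hN hδ (tk7_fin_ctb hN hsN ⟨{x}, fun z => by simp⟩))
    exact ⟨c, hc, hsub (ZFSet.mem_singleton.2 rfl)⟩
  have hCu : (∀ c ∈ C', ∀ x ∈ c, x ∈ h') ∧ ∀ x ∈ h', ∃ c ∈ C', x ∈ c :=
    (he.ud hA hB p5_ud2 hne0 ![⟨C', hC'⟩, ⟨h', hm⟩]).2 hEu
  have hXD : ZFSet.sUnion D = X := by
    ext z
    rw [ZFSet.mem_sUnion, hX]
    constructor
    · rintro ⟨d, hd, hz⟩
      obtain ⟨c, hc, rfl⟩ := (hD1 d).1 hd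
      obtain ⟨x, hx, rfl⟩ := (himg c hc z).1 hz
      exact ⟨x, hCu.1 c hc x hx, rfl⟩
    · rintro ⟨x, hx, rfl⟩
      obtain ⟨c, hc, hxc⟩ := hCu.2 x hx
      exact ⟨e c, (hD1 _).2 ⟨c, hc, rfl⟩, (himg c hc _).2 ⟨x, hxc, rfl⟩⟩
  rw [← hXD]
  exact club_directed hN hδ hEN hcl hD hDE hDne hDdir hD2

end Pool.Agent.H19.IG6
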