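import Pool.Agent.H19.IG6.P2

/-!
# IG, Part 6: the hull is guessing

`AP.gen`: enumerate `Y` in `W` (`exists_enum`, Tk1): `μ`, a bijection `f ∈ W` of `μ` onto `Y`. `b' := {ξ < μ : f ξ ∈ b} ∈ N`. For `a ∈ W`, `a ⊆ μ`, countable in `W`:
`a' := {y ∈ Y : ∃ ξ ∈ a, (ξ, y) ∈ f} ∈ W` is countable in `W` (`Ctb.image`), `b ∩ a' ∈ W` and `b' ∩ a = {ξ ∈ a : ∃ y ∈ b ∩ a', (ξ, y) ∈ f} ∈ W`. So `b' ∈ W` (`AP`), and
`b = {y ∈ Y : ∃ ξ ∈ b', (ξ, y) ∈ f} ∈ W`. (Compare `Cov.mid` in H7/IG/CovM.lean, the same technique.)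

`hull_guess`: let `Y ∈ X`, `S ∈ N`, `S ⊆ Y`, `S ∩ a ∈ X` for all `a ∈ X` countable in `N`. `Y = e Y'`, `Y' ∈ h'`; `b := {z ∈ Y' : e z ∈ S} ∈ N` (`LE.pre`).
`b ∈ W` by `AP.gen`: for `a ∈ W`, `a ⊆ Y'`, `Ctb W a`: `a ∈ h'` (`hsb`), `e a ∈ X`, `e a = {e z : z ∈ a}` (`Elem.image_ctb`), `Ctb N (e a)` (`Elem.ctb`), so `S ∩ e a ∈ X`,
`S ∩ e a = e c`, `c ∈ h'`; `b ∩ a = c ∩ a`: for `z ∈ a` (so `z ∈ Y'`, `e z ∈ e a`): `z ∈ b ↔ e z ∈ S ↔ e z ∈ S ∩ e a = e c ↔ z ∈ c` (`Elem.mem`).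
So `b ∈ W`, `b ⊆ Y' ∈ h'`, `b ∈ h'` (`hsb`), `e b ∈ X`; for `x = e z ∈ X`, `z ∈ h'`: `x ∈ S → x ∈ Y = e Y' → z ∈ Y' → z ∈ b → x ∈ e b`, and `x ∈ e b → z ∈ b → x ∈ S`.
-/

set_option autoImplicit false
set_option linter.unusedVariables false
set_option linter.unusedSectionVars false
set_option linter.unusedSimpArgs false
set_option linter.unusedTactic false
set_option linter.unreachableTactic false

namespace Pool.Agent.H19.IG6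

open Pool.Agent.H17.Omega Pool.Agent.H17.Omega.CTM Pool.Agent.H52.GX Pool.Agent.H52.GC Pool.Agent.H7.IG

variable {W N A B : Set ZFSet.{0}} {δ γ κ : Ordinal.{0}} {e : ZFSet.{0} → ZFSet.{0}}

theorem AP.gen (hW : CTM W) (hN : CTM N) (hWN : W ⊆ N) (hap : AP W N) {Y b : ZFSet.{0}} (hY : Y ∈ W) (hb : b ∈ N)
    (hbY : b ⊆ Y) (h : ∀ a ∈ W, a ⊆ Y → Ctb W a → b ∩ a ∈ W) : b ∈ W := by
  obtain ⟨μ, hμ, f, hf, ⟨hff, hfo⟩, hfi⟩ := exists_enum hW hY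
  obtain ⟨b', hb', hb'm⟩ := hN.exists_sep (P := fun ξ => ∃ z : N, z.1 ∈ (⟨b, hb⟩ : N).1 ∧
    ZFSet.pair ξ.1 z.1 ∈ (⟨f, hWN hf⟩ : N).1) (by
      (repeat' first
      | exact DT.var _ | exact DT.last | exact DT.const _ | assumption
      | refine Dfn.pairMem ?_ ?_ ?_ | refine Dfn.isPair ?_ ?_ ?_ | refine Dfn.mem ?_ ?_
      | refine Dfn.eqv ?_ ?_ | refine Dfn.eq ?_ ?_ | refine Dfn.subset ?_ ?_
      | refine Dfn.isEmpty ?_ | refine Dfn.isTrans ?_ | refine Dfn.isOrd ?_ | refine Dfn.isNat ?_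
      | refine Dfn.isUpair ?_ ?_ ?_ | refine Dfn.isInsert ?_ ?_ ?_
      | refine Dfn.and ?_ ?_ | refine Dfn.or ?_ ?_ | refine Dfn.iff ?_ ?_ | refine Dfn.not ?_
      | refine Dfn.imp ?_ ?_ | refine Dfn.all ?_ | refine Dfn.ex ?_ | exact Dfn.false'
      | refine Dfn.ballZ ?_ ?_ | refine Dfn.bexZ ?_ ?_ | exact Dfn.const _)) (hWN hμ)
  have hb'W : b' ∈ W := by
    refine hap μ hμ b' hb' (fun z hz => ((hb'm z).1 hz).1) ?_
    intro a ha haμ hac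
    obtain ⟨a', ha', ha'm⟩ := hW.exists_sep (P := fun w => ∃ ξ : W, ξ.1 ∈ (⟨a, ha⟩ : W).1 ∧
      ZFSet.pair ξ.1 w.1 ∈ (⟨f, hf⟩ : W).1) (by
      (repeat' first
      | exact DT.var _ | exact DT.last | exact DT.const _ | assumption
      | refine Dfn.pairMem ?_ ?_ ?_ | refine Dfn.isPair ?_ ?_ ?_ | refine Dfn.mem ?_ ?_
      | refine Dfn.eqv ?_ ?_ | refine Dfn.eq ?_ ?_ | refine Dfn.subset ?_ ?_
      | refine Dfn.isEmpty ?_ | refine Dfn.isTrans ?_ | refine Dfn.isOrd ?_ | refine Dfn.isNat ?_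
      | refine Dfn.isUpair ?_ ?_ ?_ | refine Dfn.isInsert ?_ ?_ ?_
      | refine Dfn.and ?_ ?_ | refine Dfn.or ?_ ?_ | refine Dfn.iff ?_ ?_ | refine Dfn.not ?_
      | refine Dfn.imp ?_ ?_ | refine Dfn.all ?_ | refine Dfn.ex ?_ | exact Dfn.false'
      | refine Dfn.ballZ ?_ ?_ | refine Dfn.bexZ ?_ ?_ | exact Dfn.const _)) hY
    have ha'c : Ctb W a' := by
      refine Ctb.image hW hac ha (F := fun ξ w => ZFSet.pair ξ.1 w.1 ∈ (⟨f, hf⟩ : W).1) (by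
      (repeat' first
      | exact DT.var _ | exact DT.last | exact DT.const _ | assumption
      | refine Dfn.pairMem ?_ ?_ ?_ | refine Dfn.isPair ?_ ?_ ?_ | refine Dfn.mem ?_ ?_
      | refine Dfn.eqv ?_ ?_ | refine Dfn.eq ?_ ?_ | refine Dfn.subset ?_ ?_
      | refine Dfn.isEmpty ?_ | refine Dfn.isTrans ?_ | refine Dfn.isOrd ?_ | refine Dfn.isNat ?_
      | refine Dfn.isUpair ?_ ?_ ?_ | refine Dfn.isInsert ?_ ?_ ?_
      | refine Dfn.and ?_ ?_ | refine Dfn.or ?_ ?_ | refine Dfn.iff ?_ ?_ | refine Dfn.not ?_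
      | refine Dfn.imp ?_ ?_ | refine Dfn.all ?_ | refine Dfn.ex ?_ | exact Dfn.false'
      | refine Dfn.ballZ ?_ ?_ | refine Dfn.bexZ ?_ ?_ | exact Dfn.const _)) ?_ ?_
      · intro ξ _ w w' h1 h2
        exact Subtype.ext ((hff.ap_eq h1).symm.trans (hff.ap_eq h2))
      · intro w hw
        obtain ⟨_, hwW, ξ, h1, h2⟩ := (ha'm w).1 hw
        exact ⟨ξ, ⟨w, hwW⟩, h1, rfl, h2⟩
    have hba : b ∩ a' ∈ W := h a' ha' (fun z hz => ((ha'm z).1 hz).1) ha'c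
    obtain ⟨d, hd, hdm⟩ := hW.exists_sep (P := fun ξ => ∃ w : W, w.1 ∈ (⟨b ∩ a', hba⟩ : W).1 ∧
      ZFSet.pair ξ.1 w.1 ∈ (⟨f, hf⟩ : W).1) (by
      (repeat' first
      | exact DT.var _ | exact DT.last | exact DT.const _ | assumption
      | refine Dfn.pairMem ?_ ?_ ?_ | refine Dfn.isPair ?_ ?_ ?_ | refine Dfn.mem ?_ ?_
      | refine Dfn.eqv ?_ ?_ | refine Dfn.eq ?_ ?_ | refine Dfn.subset ?_ ?_
      | refine Dfn.isEmpty ?_ | refine Dfn.isTrans ?_ | refine Dfn.isOrd ?_ | refine Dfn.isNat ?_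
      | refine Dfn.isUpair ?_ ?_ ?_ | refine Dfn.isInsert ?_ ?_ ?_
      | refine Dfn.and ?_ ?_ | refine Dfn.or ?_ ?_ | refine Dfn.iff ?_ ?_ | refine Dfn.not ?_
      | refine Dfn.imp ?_ ?_ | refine Dfn.all ?_ | refine Dfn.ex ?_ | exact Dfn.false'
      | refine Dfn.ballZ ?_ ?_ | refine Dfn.bexZ ?_ ?_ | exact Dfn.const _)) ha
    have hd' : b' ∩ a = d := by
      ext ξ
      rw [ZFSet.mem_inter, hdm, hb'm]
      constructor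
      · rintro ⟨⟨h1, h2, z, hz, hzf⟩, hξa⟩
        have hzY := hbY hz
        have hzW := hW.mem_of_mem hY hzY
        have hξW := hW.mem_of_mem ha hξa
        exact ⟨hξa, hξW, ⟨z.1, hzW⟩, ZFSet.mem_inter.2 ⟨hz, (ha'm z.1).2 ⟨hzY, hzW, ⟨ξ, hξW⟩, hξa, hzf⟩⟩, hzf⟩
      · rintro ⟨hξa, hξW, w, hw, hwf⟩
        exact ⟨⟨haμ hξa, hWN hξW, ⟨w.1, hWN w.2⟩, (ZFSet.mem_inter.1 hw).1, hwf⟩, hξa⟩
    rw [hd']
    exact hd
  obtain ⟨d, hd, hdm⟩ := hW.exists_sep (P := fun y => ∃ ξ : W, ξ.1 ∈ (⟨b', hb'W⟩ : W).1 ∧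
    ZFSet.pair ξ.1 y.1 ∈ (⟨f, hf⟩ : W).1) (by
      (repeat' first
      | exact DT.var _ | exact DT.last | exact DT.const _ | assumption
      | refine Dfn.pairMem ?_ ?_ ?_ | refine Dfn.isPair ?_ ?_ ?_ | refine Dfn.mem ?_ ?_
      | refine Dfn.eqv ?_ ?_ | refine Dfn.eq ?_ ?_ | refine Dfn.subset ?_ ?_
      | refine Dfn.isEmpty ?_ | refine Dfn.isTrans ?_ | refine Dfn.isOrd ?_ | refine Dfn.isNat ?_
      | refine Dfn.isUpair ?_ ?_ ?_ | refine Dfn.isInsert ?_ ?_ ?_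
      | refine Dfn.and ?_ ?_ | refine Dfn.or ?_ ?_ | refine Dfn.iff ?_ ?_ | refine Dfn.not ?_
      | refine Dfn.imp ?_ ?_ | refine Dfn.all ?_ | refine Dfn.ex ?_ | exact Dfn.false'
      | refine Dfn.ballZ ?_ ?_ | refine Dfn.bexZ ?_ ?_ | exact Dfn.const _)) hY
  have hd' : b = d := by
    ext y
    rw [hdm]
    constructor
    · intro hy
      have hyY := hbY hy
      have hyW := hW.mem_of_mem hY hyY
      obtain ⟨ξ, hξ, hξy⟩ := hfo y hyY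
      have hξW := hW.mem_of_mem hμ hξ
      exact ⟨hyY, hyW, ⟨ξ, hξW⟩, (hb'm ξ).2 ⟨hξ, hWN hξW, ⟨y, hWN hyW⟩, hy, hξy⟩, hξy⟩
    · rintro ⟨hyY, hyW, ξ, hξ, hξy⟩
      obtain ⟨_, _, z, hz, hzf⟩ := (hb'm ξ.1).1 hξ
      have e1 : z.1 = y := (hff.ap_eq hzf).symm.trans (hff.ap_eq hξy)
      rw [← e1]; exact hz
  rw [hd']
  exact hd

theorem hull_guess (h : LE W N A B δ γ κ e) (hap : AP W N) {h' X : ZFSet.{0}} (hm : h' ∈ A)
    (hsb : ∀ x ∈ h', ∀ y ∈ W, y ⊆ x → y ∈ h') (hX : ∀ z, z ∈ X ↔ ∃ x ∈ h', z = e x) : Guess N X := by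
  intro Y hY S hS hSY hSX
  obtain ⟨Y', hY', rfl⟩ := (hX Y).1 hY
  have hY'A : Y' ∈ A := h.lev.tra _ hm _ hY'
  obtain ⟨b, hb, hbm, _⟩ := LE.pre h hY'A hS
  have hY'W : Y' ∈ W := h.lev.sub hY'A
  have hbY : b ⊆ Y' := fun z hz => ((hbm z).1 hz).1
  have hbW : b ∈ W := by
    refine AP.gen h.hW h.hN h.sub hap hY'W hb hbY ?_
    intro a ha haY hac
    have hah : a ∈ h' := hsb _ hY' _ ha haY
    have haA : a ∈ A := h.lev.tra _ hm _ hah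
    have heX : e a ∈ X := (hX _).2 ⟨a, hah, rfl⟩
    have hec : Ctb N (e a) := (Elem.ctb h.hW h.hN h.lev h.lev' h.el haA).1 hac
    obtain ⟨c, hc, hcS⟩ := (hX _).1 (hSX _ heX hec)
    have hcA : c ∈ A := h.lev.tra _ hm _ hc
    obtain ⟨d, hd, hdm⟩ := h.hW.exists_sep (P := fun z => z.1 ∈ (⟨c, h.lev.sub hcA⟩ : W).1) (by
      (repeat' first
      | exact DT.var _ | exact DT.last | exact DT.const _ | assumption
      | refine Dfn.pairMem ?_ ?_ ?_ | refine Dfn.isPair ?_ ?_ ?_ | refine Dfn.mem ?_ ?_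
      | refine Dfn.eqv ?_ ?_ | refine Dfn.eq ?_ ?_ | refine Dfn.subset ?_ ?_
      | refine Dfn.isEmpty ?_ | refine Dfn.isTrans ?_ | refine Dfn.isOrd ?_ | refine Dfn.isNat ?_
      | refine Dfn.isUpair ?_ ?_ ?_ | refine Dfn.isInsert ?_ ?_ ?_
      | refine Dfn.and ?_ ?_ | refine Dfn.or ?_ ?_ | refine Dfn.iff ?_ ?_ | refine Dfn.not ?_
      | refine Dfn.imp ?_ ?_ | refine Dfn.all ?_ | refine Dfn.ex ?_ | exact Dfn.false'
      | refine Dfn.ballZ ?_ ?_ | refine Dfn.bexZ ?_ ?_ | exact Dfn.const _)) ha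
    have hd' : b ∩ a = d := by
      ext z
      rw [ZFSet.mem_inter, hbm, hdm]
      constructor
      · rintro ⟨⟨h1, h2⟩, h3⟩
        have hzA : z ∈ A := h.lev.tra _ haA _ h3
        refine ⟨h3, h.lev.sub hzA, ?_⟩
        refine (Elem.mem h.el h.lev.tra h.lev'.tra hzA hcA).2 ?_
        rw [← hcS, ZFSet.mem_inter]
        exact ⟨h2, (Elem.mem h.el h.lev.tra h.lev'.tra hzA haA).1 h3⟩
      · rintro ⟨h3, _, h4⟩
        have hzA : z ∈ A := h.lev.tra _ haA _ h3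
        have h5 := (Elem.mem h.el h.lev.tra h.lev'.tra hzA hcA).1 h4
        rw [← hcS, ZFSet.mem_inter] at h5
        exact ⟨⟨haY h3, h5.1⟩, h3⟩
    rw [hd']
    exact hd
  have hbh : b ∈ h' := hsb _ hY' _ hbW hbY
  have hbA : b ∈ A := h.lev.tra _ hm _ hbh
  refine ⟨e b, (hX _).2 ⟨b, hbh, rfl⟩, ?_⟩
  intro x hx
  obtain ⟨z, hz, rfl⟩ := (hX x).1 hx
  have hzA : z ∈ A := h.lev.tra _ hm _ hz
  constructor
  · intro hxS
    have h1 : z ∈ Y' := (Elem.mem h.el h.lev.tra h.lev'.tra hzA hY'A).2 (hSY hxS)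
    exact (Elem.mem h.el h.lev.tra h.lev'.tra hzA hbA).1 ((hbm z).2 ⟨h1, hxS⟩)
  · intro hxb
    exact ((hbm z).1 ((Elem.mem h.el h.lev.tra h.lev'.tra hzA hbA).2 hxb)).2

end Pool.Agent.H19.IG6
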