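import Pool.Agent.H19.IG6.P2

/-!
# IG, Part 6: closure properties of the hull

`hull_inter`: `a = e a'`, `b = e b'`, `a' ∩ b' ∈ W` is a subset of `a'`, so in `h'`; `e (a' ∩ b') = e a' ∩ e b'`: the statement `∀ z, z ∈ v 0 ↔ z ∈ v 1 ∧ z ∈ v 2` is `UD TraC` (`Elem.ud`), `B` is transitive.
`hull_ctb_sub`: `a = e a'`, `Ctb W a'` (`Elem.ctb`), `e a' = {e z : z ∈ a'}` (`Elem.image_ctb`), `z ∈ a' ∈ h'` gives `z ∈ h'`.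
`hull_cov`: `Y = e Y'`; `c' := {z ∈ Y' : e z ∈ c} ∈ N` is countable in `N` (`LE.pre`), `Cov W N` gives `a' ∈ W`, `a' ⊆ Y'`, `c' ⊆ a'`, `Ctb W a'`; `a' ∈ h'` (`hsb`); `a := e a'`:
countable in `N` (`Elem.ctb`), `a ⊆ Y` (`Elem.sbs`), and `w ∈ c` is `e z`, `z ∈ h'` (`c ⊆ X`), `e z ∈ Y = e Y'`, so `z ∈ Y'`, `z ∈ c'`, `z ∈ a'`, `w ∈ e a'`.
-/

set_option autoImplicit false
set_option linter.unusedVariables false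
set_option linter.unusedSectionVars false
set_option linter.unusedSimpArgs false
set_option linter.unusedTactic false
set_option linter.unreachableTactic false

namespace Pool.Agent.H19.IG6

open Pool.Agent.H17.Omega Pool.Agent.H17.Omega.CTM Pool.Agent.H52.GX Pool.Agent.H52.GC Pool.Agent.H7.IG

variable {W N A B : Set ZFSet.{0}} {δ γ κ : Ordinal.{0}} {e : ZFSet.{0} → ZFSet.{0}}

theorem p7_ud : UD TraC (fun N (v : Fin 3 → N) => ∀ z : N, z.1 ∈ (v 0).1 ↔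
    z.1 ∈ (v 1).1 ∧ z.1 ∈ (v 2).1) :=
  UD.all (UD.iff (UD.mem (UT.var _) (UT.var _)) (UD.and (UD.mem (UT.var _) (UT.var _))
    (UD.mem (UT.var _) (UT.var _))))

theorem hull_inter (h : LE W N A B δ γ κ e) {h' X : ZFSet.{0}} (hm : h' ∈ A)
    (hsb : ∀ x ∈ h', ∀ y ∈ W, y ⊆ x → y ∈ h') (hX : ∀ z, z ∈ X ↔ ∃ x ∈ h', z = e x) :
    ∀ a ∈ X, ∀ b ∈ X, a ∩ b ∈ X := by
  intro a ha b hb
  obtain ⟨a', ha', rfl⟩ := (hX a).1 ha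
  obtain ⟨b', hb', rfl⟩ := (hX b).1 hb
  have haA : a' ∈ A := h.traA _ hm _ ha'
  have hbA : b' ∈ A := h.traA _ hm _ hb'
  have hW : a' ∩ b' ∈ W := by
    have h1 : ZFSet.sep (fun z => z ∈ (⟨b', h.lev.sub hbA⟩ : W).1) a' ∈ W :=
      h.hW.sep_mem (Dfn.mem (DT.var _) (DT.const _)) (h.lev.sub haA)
    have h2 : a' ∩ b' = ZFSet.sep (fun z => z ∈ (⟨b', h.lev.sub hbA⟩ : W).1) a' := by
      ext z
      rw [ZFSet.mem_inter, ZFSet.mem_sep]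
    rw [h2]
    exact h1
  have hc : a' ∩ b' ∈ h' := hsb a' ha' _ hW fun z hz => (ZFSet.mem_inter.1 hz).1
  have hcA : a' ∩ b' ∈ A := h.traA _ hm _ hc
  refine (hX _).2 ⟨a' ∩ b', hc, ?_⟩
  have h1 := (Elem.ud h.el h.traA h.traB p7_ud ⟨_, haA⟩ ![⟨a' ∩ b', hcA⟩, ⟨a', haA⟩, ⟨b', hbA⟩]).1
    (by
      intro z
      exact ZFSet.mem_inter)
  have h2 : ∀ z : B, z.1 ∈ e (a' ∩ b') ↔ z.1 ∈ e a' ∧ z.1 ∈ e b' := h1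
  have eaB : e a' ∈ B := h.el.map _ haA
  have ecB : e (a' ∩ b') ∈ B := h.el.map _ hcA
  ext z
  rw [ZFSet.mem_inter]
  constructor
  · rintro ⟨h3, h4⟩
    exact (h2 ⟨z, h.traB _ eaB _ h3⟩).2 ⟨h3, h4⟩
  · intro h3
    exact (h2 ⟨z, h.traB _ ecB _ h3⟩).1 h3

theorem hull_ctb_sub (h : LE W N A B δ γ κ e) {h' X : ZFSet.{0}} (hm : h' ∈ A)
    (htr : ∀ x ∈ h', ∀ y ∈ x, y ∈ h') (hX : ∀ z, z ∈ X ↔ ∃ x ∈ h', z = e x) :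
    ∀ a ∈ X, Ctb N a → a ⊆ X := by
  intro a ha hc
  obtain ⟨a', ha', rfl⟩ := (hX a).1 ha
  have haA : a' ∈ A := h.traA _ hm _ ha'
  have hc' : Ctb W a' := (Elem.ctb h.hW h.hN h.lev h.lev' h.el haA).2 hc
  intro z hz
  obtain ⟨x, hx, rfl⟩ := (Elem.image_ctb h.hW h.hN h.lev h.lev' h.el haA hc' z).1 hz
  exact (hX _).2 ⟨x, htr _ ha' _ hx, rfl⟩

theorem hull_cov (h : LE W N A B δ γ κ e) (hcov : Cov W N) {h' X : ZFSet.{0}} (hm : h' ∈ A)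
    (hsb : ∀ x ∈ h', ∀ y ∈ W, y ⊆ x → y ∈ h') (hX : ∀ z, z ∈ X ↔ ∃ x ∈ h', z = e x) :
    ∀ Y ∈ X, ∀ c ∈ N, c ⊆ X → c ⊆ Y → Ctb N c → ∃ a ∈ X, Ctb N a ∧ a ⊆ Y ∧ c ⊆ a := by
  intro Y hY c hc hcX hcY hcc
  obtain ⟨Y', hY', rfl⟩ := (hX Y).1 hY
  have hYA : Y' ∈ A := h.traA _ hm _ hY'
  obtain ⟨c', hc', hc'', hctb⟩ := LE.pre h hYA hc
  obtain ⟨a', ha'W, ha'Y, hca, hac⟩ := hcov Y' (h.lev.sub hYA) c' hc'
    (fun z hz => ((hc'' z).1 hz).1) (hctb hcc)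
  have ha' : a' ∈ h' := hsb Y' hY' a' ha'W ha'Y
  have haA : a' ∈ A := h.traA _ hm _ ha'
  refine ⟨e a', (hX _).2 ⟨a', ha', rfl⟩, (Elem.ctb h.hW h.hN h.lev h.lev' h.el haA).1 hac,
    (Elem.sbs h.el h.traA h.traB haA hYA).1 ha'Y, ?_⟩
  intro w hw
  obtain ⟨z, hz, rfl⟩ := (hX w).1 (hcX hw)
  have hzA : z ∈ A := h.traA _ hm _ hz
  have h1 : z ∈ Y' := (Elem.mem h.el h.traA h.traB hzA hYA).2 (hcY hw)
  exact (Elem.mem h.el h.traA h.traB hzA haA).1 (hca ((hc'' z).2 ⟨h1, hw⟩))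

end Pool.Agent.H19.IG6
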