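import Pool.Agent.H19.IG6.P1
import Pool.Agent.H19.IG6.P4
import Pool.Agent.H19.IG6.P5
import Pool.Agent.H19.IG6.P6
import Pool.Agent.H19.IG6.P7
import Pool.Agent.H88.IG.GO

/-!
# IG, Part 6: the big lifting property implies IGMP
-/

set_option autoImplicit false
set_option linter.unusedVariables false
set_option linter.unusedSectionVars false
set_option linter.unusedSimpArgs false
set_option linter.unusedTactic false
set_option linter.unreachableTactic false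

namespace Pool.Agent.H19.IG6

open Pool.Agent.H17.Omega Pool.Agent.H17.Omega.CTM Pool.Agent.H52.GX Pool.Agent.H52.GC Pool.Agent.H7.IG Pool.Agent.H88.IG

theorem igmp_of_blp {N : Set ZFSet.{0}} (hN : CTM N) {δ κ : Ordinal.{0}} (h2 : IsOm2 N δ κ) (hSP : SP N δ)
    (hB : BLP N δ κ) : IGMP N δ κ := by
  refine ⟨κ, h2.mem, fun θ _ hκθ hreg => ?_⟩
  obtain ⟨h, hh, hh'⟩ := exists_Hth hN hreg
  refine ⟨h, hh, hh', fun C hC hcl => ?_⟩
  obtain ⟨W, A, B, γ, e, hL, hs, hcov, hap, z, hz, hez⟩ := hB _ (hN.pair_mem hh hC)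
  obtain ⟨h', hm, C', hC', hp, rfl, rfl⟩ := hL.el.comp hL.traA hL.traB hz hez
  obtain ⟨X, hXN, hX, hXc⟩ := LE.img hL hs hm
  have hA' : ∀ x ∈ h', x ∈ A := fun x hx => hL.traA _ hm _ hx
  have htr : ∀ x ∈ h', ∀ y ∈ x, y ∈ h' := by
    intro x hx y hy
    have hyA : y ∈ A := hL.traA _ (hA' x hx) _ hy
    have h1 := (hL.el.mem hL.traA hL.traB (hA' x hx) hm).1 hx
    have h2 := (hL.el.mem hL.traA hL.traB hyA (hA' x hx)).1 hy
    exact (hL.el.mem hL.traA hL.traB hyA hm).2 ((hh' _).2 (Hth_tra hN ((hh' _).1 h1) h2))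
  have hsb : ∀ x ∈ h', ∀ y ∈ W, y ⊆ x → y ∈ h' := by
    intro x hx y hy hyx
    have hyA : y ∈ A := hL.lev.sbs _ (hA' x hx) y hy hyx
    have h1 := (hL.el.mem hL.traA hL.traB (hA' x hx) hm).1 hx
    have h2 := (hL.el.sbs hL.traA hL.traB hyA (hA' x hx)).1 hyx
    exact (hL.el.mem hL.traA hL.traB hyA hm).2
      ((hh' _).2 (Hth_sbs ((hh' _).1 h1) (hL.lev'.sub (hL.el.map _ hyA)) h2))
  exact ⟨X, hull_mem_club hL hs hm hC' hcl hX, elemSub_of_elem hL.el hL.traA hL.traB hm hX,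
    indes_of_sp hN h2.om1 hSP hXN hXc (hull_guess hL hap hm hsb hX) (hull_inter hL hm hsb hX)
      (hull_ctb_sub hL hm htr hX) (hull_cov hL hcov hm hsb hX)⟩

end Pool.Agent.H19.IG6
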