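import Pool.Agent.H7.IG.LED
import Pool.Agent.H7.IG.LevC
import Pool.Agent.H7.IG.Tk4
import Pool.Agent.H7.IG.Tk5
import Pool.Agent.H7.IG.Tk8

/-!
# IG, Part 6 (from the big lifting property to IGMP): `H_θ` of a model is a set of the model

`rank_lt_of_Hth`: let `x ∈ Hth N θ`, `t ∈ N` transitive, `x ⊆ t`, `α < θ`, `Cvr N α t`. The set `R = t.rank.toZFSet` consists of the ranks
(as ordinals) of the elements of `t`: if `y ∈ t` and `ρ < rank y` there is `z ∈ y` with `ρ ≤ rank z`; by induction on `y` (`ZFSet.inductionOn`, `t`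
transitive) every `ρ < rank y` is the rank of an element of `t`; and `ρ < rank t` gives a `y ∈ t` with `ρ ≤ rank y` (`ZFSet.rank_le_iff`).
`CTM.exists_rankF` (H17/Omega/CtmV.lean; the rank function is definable) and `cvr_of_dfn` (Tk4) give `Cvr N t R`, `Cvr.trans` gives `Cvr N α R`
(`R ∈ N` by `CTM.rank_mem`). If `θ ≤ rank t` then `θ.toZFSet ⊆ R`, so `Cvr N α θ`, and `RegC` (with `x := θ.toZFSet`) gives `β < θ` with `θ ⊆ β`,
a contradiction. So `rank x ≤ rank t < θ` (`ZFSet.rank_mono`).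

`exists_Hth`: separation (`CTM.exists_sep`) in `V_θ` of `N` (`exists_Lv`, Tk8) with the condition
`∃ t : N, t transitive ∧ x ⊆ t ∧ ∃ α ∈ θ, Cvr N α t` (`ud_Cvr.d2`, `Dfn.isTrans`).

`Hth_tra`, `Hth_sbs`: immediate from the definition.
-/

set_option autoImplicit false
set_option linter.unusedVariables false
set_option linter.unusedSectionVars false
set_option linter.unusedSimpArgs false
set_option linter.unusedTactic false
set_option linter.unreachableTactic false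

namespace Pool.Agent.H19.IG6

open Pool.Agent.H17.Omega Pool.Agent.H17.Omega.CTM Pool.Agent.H52.GX Pool.Agent.H52.GC Pool.Agent.H7.IG

/-- The ranks of the elements of a transitive set form an initial segment. -/
theorem exists_rank_eq_of_trans {t : ZFSet.{0}} (htt : t.IsTransitive) {γ : Ordinal.{0}} (hγ : γ < t.rank) :
    ∃ y ∈ t, y.rank = γ := by
  have h1 : ∃ y ∈ t, γ ≤ y.rank := by
    by_contra hc
    push Not at hc
    exact absurd (ZFSet.rank_le_iff.2 fun {y} hy => hc y hy) (not_le.2 hγ)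
  have h2 : ∃ ρ : Ordinal.{0}, ρ ∈ {ρ : Ordinal.{0} | ∃ y ∈ t, γ ≤ y.rank ∧ y.rank = ρ} := by
    obtain ⟨y, hy, h⟩ := h1
    exact ⟨y.rank, y, hy, h, rfl⟩
  obtain ⟨ρ, ⟨y, hy, hγy, rfl⟩, hmin⟩ := (wellFounded_lt (α := Ordinal.{0})).has_min
    {ρ : Ordinal.{0} | ∃ y ∈ t, γ ≤ y.rank ∧ y.rank = ρ} h2
  refine ⟨y, hy, le_antisymm ?_ hγy⟩
  rw [ZFSet.rank_le_iff]
  intro z hz
  by_contra hc
  rw [not_lt] at hc
  exact hmin z.rank ⟨z, htt.mem_trans hz hy, hc, rfl⟩ (ZFSet.rank_lt_of_mem hz)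

theorem rank_lt_of_Hth {N : Set ZFSet.{0}} (hN : CTM N) {θ : Ordinal.{0}} (hθ : RegC N θ) {x : ZFSet.{0}}
    (hx : x ∈ Hth N θ) : x.rank < θ := by
  obtain ⟨hxN, t, ht, htt, hxt, α, hα, hc⟩ := hx
  refine lt_of_le_of_lt (ZFSet.rank_mono hxt) ?_
  by_contra hge
  rw [not_lt] at hge
  obtain ⟨F, hF, hF'⟩ := hN.exists_rankF
  have h1 : Cvr N t θ.toZFSet := by
    refine cvr_of_dfn (F := fun y x : N => F y = x) hN hF ht hθ.1
      (fun y _ x x1 hx hx1 => hx.symm.trans hx1) ?_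
    intro x hx
    obtain ⟨γ, hγ, hγx⟩ := Ordinal.mem_toZFSet_iff.1 hx
    obtain ⟨y, hy, hyγ⟩ := exists_rank_eq_of_trans htt (lt_of_lt_of_le hγ hge)
    refine ⟨⟨y, hN.mem_of_mem ht hy⟩, hy, Subtype.ext ?_⟩
    rw [hF', hyγ, hγx]
  have h2 : Cvr N α.toZFSet θ.toZFSet :=
    Cvr.trans hN (hN.toZFSet_mem_of_le hα.le hθ.1) ht hθ.1 hc h1
  obtain ⟨β, hβ, hβ'⟩ := hθ.2 α hα _ hθ.1 (fun z hz => hz) h2
  exact ZFSet.mem_irrefl _ (hβ' (Ordinal.mem_toZFSet_iff.2 ⟨β, hβ, rfl⟩))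

theorem exists_Hth {N : Set ZFSet.{0}} (hN : CTM N) {θ : Ordinal.{0}} (hθ : RegC N θ) :
    ∃ h ∈ N, ∀ x, x ∈ h ↔ x ∈ Hth N θ := by
  obtain ⟨K, hK, hK'⟩ := exists_Lv hN hθ.1
  have hdf : hN.Dfn (fun v : Fin 1 → N => ∃ t : N, t.1.IsTransitive ∧ (v 0).1 ⊆ t.1 ∧
      ∃ a : N, a.1 ∈ ((⟨θ.toZFSet, hθ.1⟩ : N).1) ∧ Cvr N a.1 t.1) := by
    (repeat' first
      | exact DT.var _ | exact DT.last | exact DT.const _ | assumption
      | refine Dfn.pairMem ?_ ?_ ?_ | refine Dfn.isPair ?_ ?_ ?_ | refine Dfn.mem ?_ ?_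
      | refine Dfn.eqv ?_ ?_ | refine Dfn.eq ?_ ?_ | refine Dfn.subset ?_ ?_
      | refine Dfn.isEmpty ?_ | refine Dfn.isTrans ?_ | refine Dfn.isOrd ?_ | refine Dfn.isNat ?_
      | refine Dfn.isUpair ?_ ?_ ?_ | refine Dfn.isInsert ?_ ?_ ?_
      | refine Dfn.and ?_ ?_ | refine Dfn.or ?_ ?_ | refine Dfn.iff ?_ ?_ | refine Dfn.not ?_
      | refine Dfn.imp ?_ ?_ | refine Dfn.all ?_ | refine Dfn.ex ?_ | exact Dfn.false'
      | refine Dfn.ballZ ?_ ?_ | refine Dfn.bexZ ?_ ?_ | exact Dfn.const _)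
    exact UD.d2 (P := fun N x y => Cvr N x.1 y.1) ud_Cvr hN (DT.var _) (DT.var _)
  obtain ⟨h, hh, hh'⟩ := hN.exists_sep (P := fun x : N => ∃ t : N, t.1.IsTransitive ∧ x.1 ⊆ t.1 ∧
      ∃ a : N, a.1 ∈ ((⟨θ.toZFSet, hθ.1⟩ : N).1) ∧ Cvr N a.1 t.1) hdf hK
  refine ⟨h, hh, fun x => ?_⟩
  rw [hh' x]
  constructor
  · rintro ⟨-, hxN, ⟨t, ht⟩, htt, hxt, ⟨a, ha⟩, haθ, hc⟩
    obtain ⟨α, hα, rfl⟩ := Ordinal.mem_toZFSet_iff.1 haθ
    exact ⟨hxN, t, ht, htt, hxt, α, hα, hc⟩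
  · intro hx
    have hr := rank_lt_of_Hth hN hθ hx
    obtain ⟨hxN, t, ht, htt, hxt, α, hα, hc⟩ := hx
    exact ⟨(hK' x).2 ⟨hxN, hr⟩, hxN, ⟨t, ht⟩, htt, hxt,
      ⟨α.toZFSet, hN.toZFSet_mem_of_le hα.le hθ.1⟩, Ordinal.mem_toZFSet_iff.2 ⟨α, hα, rfl⟩, hc⟩

theorem Hth_tra {N : Set ZFSet.{0}} (hN : CTM N) {θ : Ordinal.{0}} {x y : ZFSet.{0}}
    (hx : x ∈ Hth N θ) (hy : y ∈ x) : y ∈ Hth N θ := by
  obtain ⟨h1, t, ht, htt, hxt, h2⟩ := hx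
  exact ⟨hN.mem_of_mem h1 hy, t, ht, htt, fun z hz => htt.mem_trans hz (hxt hy), h2⟩

theorem Hth_sbs {N : Set ZFSet.{0}} {θ : Ordinal.{0}} {x y : ZFSet.{0}}
    (hx : x ∈ Hth N θ) (hy : y ∈ N) (hyx : y ⊆ x) : y ∈ Hth N θ := by
  obtain ⟨h1, t, ht, htt, hxt, h2⟩ := hx
  exact ⟨hy, t, ht, htt, fun z hz => hxt (hyx hz), h2⟩

end Pool.Agent.H19.IG6
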