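import Pool.Agent.H7.IG.LED
import Pool.Agent.H7.IG.LevC
import Pool.Agent.H7.IG.Tk4
import Pool.Agent.H7.IG.Tk5
import Pool.Agent.H7.IG.Tk8

/-!
# IG, Part 6: images and preimages under a lifted embedding

The graph `g ∈ N` of `e` (`LE.gr`).
`LE.img`: `X = {w : ∃ x ∈ S, (x, w) ∈ g}`, a subset of `e S` (`x ∈ S → e x ∈ e S`, `Elem.mem`), by separation (`hN.exists_sep`). `Cvr N δ X`: `Sml` gives `Cvr N δ S` (`Cvr.mono`),
`cvr_of_dfn` with the definable relation `(x, w) ∈ g` gives `Cvr N S X`; `Cvr.trans`.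
`LE.pre`: `c = {z ∈ S : ∃ w ∈ b, (z, w) ∈ g}`. If `b` is countable: `Ctb.image` with `F w z := (z, w) ∈ g`, functional since `e` is injective (`Elem.inj`).
-/

set_option autoImplicit false
set_option linter.unusedVariables false
set_option linter.unusedSectionVars false
set_option linter.unusedSimpArgs false
set_option linter.unusedTactic false
set_option linter.unreachableTactic false

namespace Pool.Agent.H19.IG6

open Pool.Agent.H17.Omega Pool.Agent.H17.Omega.CTM Pool.Agent.H52.GX Pool.Agent.H52.GC Pool.Agent.H7.IG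

variable {W N A B : Set ZFSet.{0}} {δ γ κ : Ordinal.{0}} {e : ZFSet.{0} → ZFSet.{0}}

theorem LE.img (h : LE W N A B δ γ κ e) (hs : Sml N A δ) {S : ZFSet.{0}} (hS : S ∈ A) :
    ∃ X ∈ N, (∀ z, z ∈ X ↔ ∃ x ∈ S, z = e x) ∧ Cvr N δ.toZFSet X := by
  have hN := h.hN
  obtain ⟨g, hg, hg'⟩ := h.gr
  obtain ⟨a, ha, ha', hac⟩ := hs
  have hSg : ZFSet.pair S (e S) ∈ g := (hg' _).2 ⟨S, hS, rfl⟩
  have hSN := (hN.of_pair_mem (hN.mem_of_mem hg hSg)).1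
  have heSN := (hN.of_pair_mem (hN.mem_of_mem hg hSg)).2
  have hval : ∀ x y : ZFSet.{0}, ZFSet.pair x y ∈ g → x ∈ A ∧ y = e x := by
    intro x y hxy
    obtain ⟨x', hx', h1⟩ := (hg' _).1 hxy
    rw [ZFSet.pair_inj] at h1
    rw [h1.1]
    exact ⟨hx', h1.2⟩
  have hSA : ∀ x ∈ S, x ∈ A := fun x hx => h.traA _ hS _ hx
  obtain ⟨X, hX, hX'⟩ := hN.exists_sep
    (P := fun w => ∃ x : N, x.1 ∈ (⟨S, hSN⟩ : N).1 ∧ ZFSet.pair x.1 w.1 ∈ (⟨g, hg⟩ : N).1) (by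
      show hN.Dfn (fun v : Fin 1 → N => ∃ x : N, x.1 ∈ (⟨S, hSN⟩ : N).1 ∧
        ZFSet.pair x.1 (v 0).1 ∈ (⟨g, hg⟩ : N).1)
      (repeat' first
      | exact DT.var _ | exact DT.last | exact DT.const _ | assumption
      | refine Dfn.pairMem ?_ ?_ ?_ | refine Dfn.isPair ?_ ?_ ?_ | refine Dfn.mem ?_ ?_
      | refine Dfn.eqv ?_ ?_ | refine Dfn.eq ?_ ?_ | refine Dfn.subset ?_ ?_
      | refine Dfn.isEmpty ?_ | refine Dfn.isTrans ?_ | refine Dfn.isOrd ?_ | refine Dfn.isNat ?_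
      | refine Dfn.isUpair ?_ ?_ ?_ | refine Dfn.isInsert ?_ ?_ ?_
      | refine Dfn.and ?_ ?_ | refine Dfn.or ?_ ?_ | refine Dfn.iff ?_ ?_ | refine Dfn.not ?_
      | refine Dfn.imp ?_ ?_ | refine Dfn.all ?_ | refine Dfn.ex ?_ | exact Dfn.false'
      | refine Dfn.ballZ ?_ ?_ | refine Dfn.bexZ ?_ ?_ | exact Dfn.const _)) heSN
  have hXm : ∀ z, z ∈ X ↔ ∃ x ∈ S, z = e x := by
    intro z
    rw [hX']
    constructor
    · rintro ⟨_, _, x, h1, h2⟩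
      exact ⟨x.1, h1, (hval _ _ h2).2⟩
    · rintro ⟨x, hx, rfl⟩
      have h1 : ZFSet.pair x (e x) ∈ g := (hg' _).2 ⟨x, hSA x hx, rfl⟩
      have h2 := hN.of_pair_mem (hN.mem_of_mem hg h1)
      exact ⟨(Elem.mem h.el h.traA h.traB (hSA x hx) hS).1 hx, h2.2, ⟨x, h2.1⟩, hx, h1⟩
  refine ⟨X, hX, hXm, ?_⟩
  have hc1 : Cvr N δ.toZFSet S := hac.mono fun x hx => (ha' x).2 (hSA x hx)
  have hc2 : Cvr N S X := by
    refine ⟨g, hg, ?_, ?_⟩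
    · intro y _ x x' h1 h2
      rw [(hval _ _ h1).2, (hval _ _ h2).2]
    · intro z hz
      obtain ⟨x, hx, rfl⟩ := (hXm z).1 hz
      exact ⟨x, hx, (hg' _).2 ⟨x, hSA x hx, rfl⟩⟩
  exact Cvr.trans hN h.om1'.mem hSN hX hc1 hc2

theorem LE.pre (h : LE W N A B δ γ κ e) {S b : ZFSet.{0}} (hS : S ∈ A) (hb : b ∈ N) :
    ∃ c ∈ N, (∀ z, z ∈ c ↔ z ∈ S ∧ e z ∈ b) ∧ (Ctb N b → Ctb N c) := by
  have hN := h.hN
  obtain ⟨g, hg, hg'⟩ := h.gr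
  have hSg : ZFSet.pair S (e S) ∈ g := (hg' _).2 ⟨S, hS, rfl⟩
  have hSN := (hN.of_pair_mem (hN.mem_of_mem hg hSg)).1
  have hval : ∀ x y : ZFSet.{0}, ZFSet.pair x y ∈ g → x ∈ A ∧ y = e x := by
    intro x y hxy
    obtain ⟨x', hx', h1⟩ := (hg' _).1 hxy
    rw [ZFSet.pair_inj] at h1
    rw [h1.1]
    exact ⟨hx', h1.2⟩
  have hSA : ∀ x ∈ S, x ∈ A := fun x hx => h.traA _ hS _ hx
  obtain ⟨c, hc, hc'⟩ := hN.exists_sep
    (P := fun z => ∃ w : N, w.1 ∈ (⟨b, hb⟩ : N).1 ∧ ZFSet.pair z.1 w.1 ∈ (⟨g, hg⟩ : N).1) (by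
      show hN.Dfn (fun v : Fin 1 → N => ∃ w : N, w.1 ∈ (⟨b, hb⟩ : N).1 ∧
        ZFSet.pair (v 0).1 w.1 ∈ (⟨g, hg⟩ : N).1)
      (repeat' first
      | exact DT.var _ | exact DT.last | exact DT.const _ | assumption
      | refine Dfn.pairMem ?_ ?_ ?_ | refine Dfn.isPair ?_ ?_ ?_ | refine Dfn.mem ?_ ?_
      | refine Dfn.eqv ?_ ?_ | refine Dfn.eq ?_ ?_ | refine Dfn.subset ?_ ?_
      | refine Dfn.isEmpty ?_ | refine Dfn.isTrans ?_ | refine Dfn.isOrd ?_ | refine Dfn.isNat ?_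
      | refine Dfn.isUpair ?_ ?_ ?_ | refine Dfn.isInsert ?_ ?_ ?_
      | refine Dfn.and ?_ ?_ | refine Dfn.or ?_ ?_ | refine Dfn.iff ?_ ?_ | refine Dfn.not ?_
      | refine Dfn.imp ?_ ?_ | refine Dfn.all ?_ | refine Dfn.ex ?_ | exact Dfn.false'
      | refine Dfn.ballZ ?_ ?_ | refine Dfn.bexZ ?_ ?_ | exact Dfn.const _)) hSN
  have hcm : ∀ z, z ∈ c ↔ z ∈ S ∧ e z ∈ b := by
    intro z
    rw [hc']
    constructor
    · rintro ⟨h1, _, w, h2, h3⟩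
      have h4 := (hval _ _ h3).2
      have h5 : w.1 = e z := h4
      exact ⟨h1, by rw [← h5]; exact h2⟩
    · rintro ⟨h1, h2⟩
      have h3 : ZFSet.pair z (e z) ∈ g := (hg' _).2 ⟨z, hSA z h1, rfl⟩
      exact ⟨h1, hN.mem_of_mem hSN h1, ⟨e z, hN.mem_of_mem hb h2⟩, h2, h3⟩
  refine ⟨c, hc, hcm, fun hbc => ?_⟩
  refine Ctb.image hN hbc hb (F := fun w z => ZFSet.pair z.1 w.1 ∈ (⟨g, hg⟩ : N).1) (by
      show hN.Dfn (fun v : Fin 2 → N => ZFSet.pair (v 1).1 (v 0).1 ∈ (⟨g, hg⟩ : N).1)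
      (repeat' first
      | exact DT.var _ | exact DT.last | exact DT.const _ | assumption
      | refine Dfn.pairMem ?_ ?_ ?_ | refine Dfn.isPair ?_ ?_ ?_ | refine Dfn.mem ?_ ?_
      | refine Dfn.eqv ?_ ?_ | refine Dfn.eq ?_ ?_ | refine Dfn.subset ?_ ?_
      | refine Dfn.isEmpty ?_ | refine Dfn.isTrans ?_ | refine Dfn.isOrd ?_ | refine Dfn.isNat ?_
      | refine Dfn.isUpair ?_ ?_ ?_ | refine Dfn.isInsert ?_ ?_ ?_
      | refine Dfn.and ?_ ?_ | refine Dfn.or ?_ ?_ | refine Dfn.iff ?_ ?_ | refine Dfn.not ?_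
      | refine Dfn.imp ?_ ?_ | refine Dfn.all ?_ | refine Dfn.ex ?_ | exact Dfn.false'
      | refine Dfn.ballZ ?_ ?_ | refine Dfn.bexZ ?_ ?_ | exact Dfn.const _)) ?_ ?_
  · intro w _ z z' h1 h2
    have h3 := hval _ _ h1
    have h4 := hval _ _ h2
    exact Subtype.ext (Elem.inj h.el h.traA h.traB h3.1 h4.1 (h3.2.symm.trans h4.2))
  · intro z hz
    have h1 := (hcm z).1 hz
    have h3 : ZFSet.pair z (e z) ∈ g := (hg' _).2 ⟨z, hSA z h1.1, rfl⟩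
    exact ⟨⟨e z, hN.mem_of_mem hb h1.2⟩, ⟨z, hN.mem_of_mem hc hz⟩, h1.2, rfl, h3⟩

end Pool.Agent.H19.IG6
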